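import Pool.Agent.MP_249f74_an.H2.Sec3
import Pool.Agent.MP_249f74_an.H17.CmEnd

/-!
The billiard map of a quadric has no invariant of a finite order.
-/

open Matrix Set

namespace Pool.Agent.MP_249f74_an.H92

section Loc

variable {R L : Type} [CommRing R] [Field L] (φ : R →+* L) {Θ : R} (hΘ : Prime Θ) (σ : L →+* L)

/-- Fractions with denominators that are prime to `Θ`. -/
def Loc : Subring L where
  carrier := {z | ∃ A B, ¬Θ ∣ B ∧ z * φ B = φ A}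
  mul_mem' := fun ⟨A, B, h, e⟩ ⟨A', B', h', e'⟩ => ⟨A * A', B * B',
    fun d => (hΘ.dvd_or_dvd d).elim h h', by rw [map_mul, map_mul, ← e, ← e']; ring⟩
  add_mem' := fun ⟨A, B, h, e⟩ ⟨A', B', h', e'⟩ => ⟨A * B' + A' * B, B * B',
    fun d => (hΘ.dvd_or_dvd d).elim h h', by simp only [map_mul, map_add, ← e, ← e']; ring⟩
  neg_mem' := fun ⟨A, B, h, e⟩ => ⟨-A, B, h, by rw [map_neg, ← e, neg_mul]⟩
  one_mem' := ⟨1, 1, hΘ.not_dvd_one, by simp⟩
  zero_mem' := ⟨0, 1, hΘ.not_dvd_one, by simp⟩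

/-- Elements that are fixed modulo `Θ`. -/
def Fix : Subring L where
  carrier := {z | z ∈ Loc φ hΘ ∧ ∃ y ∈ Loc φ hΘ, σ z = z + φ Θ * y}
  mul_mem' := fun {a b} ⟨h, y, hy, e⟩ ⟨h', y', hy', e'⟩ => ⟨mul_mem h h',
    a * y' + y * b + φ Θ * y * y', add_mem (add_mem (mul_mem h hy') (mul_mem hy h'))
      (mul_mem (mul_mem ⟨Θ, 1, hΘ.not_dvd_one, by simp⟩ hy) hy'), by rw [map_mul, e, e']; ring⟩
  add_mem' := fun ⟨h, y, hy, e⟩ ⟨h', y', hy', e'⟩ => ⟨add_mem h h', y + y', add_mem hy hy', by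
    rw [map_add, e, e']; ring⟩
  neg_mem' := fun ⟨h, y, hy, e⟩ => ⟨neg_mem h, -y, neg_mem hy, by rw [map_neg, e]; ring⟩
  one_mem' := ⟨one_mem _, 0, zero_mem _, by simp⟩
  zero_mem' := ⟨zero_mem _, 0, zero_mem _, by simp⟩

variable {φ σ} {y z : L}

lemma loc_mem (P : R) : φ P ∈ Loc φ hΘ := ⟨P, 1, hΘ.not_dvd_one, by simp⟩

lemma loc_inv (hφ : Function.Injective φ) {B : R} (h : ¬Θ ∣ B) :
    φ B ≠ 0 ∧ (φ B)⁻¹ ∈ Loc φ hΘ :=
  have h0 : φ B ≠ 0 := fun e => h (by rw [(map_eq_zero_iff φ hφ).1 e]; exact dvd_zero _)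
  ⟨h0, 1, B, h, by simp [h0]⟩

variable {hΘ}

lemma loc_unit (hφ : Function.Injective φ) {n : ℕ} (hn : ¬Θ ∣ n) (hy : y ∈ Loc φ hΘ) :
    n + φ Θ * y ≠ 0 ∧ (n + φ Θ * y)⁻¹ ∈ Loc φ hΘ := by
  obtain ⟨A, B, h, e⟩ := hy
  obtain ⟨h1, h2⟩ := loc_inv hΘ hφ (B := n * B + Θ * A) fun d =>
    (hΘ.dvd_or_dvd ((dvd_add_left (dvd_mul_right Θ A)).1 d)).elim hn h
  have h3 := (loc_inv hΘ hφ h).1
  have e1 : φ (n * B + Θ * A) = (n + φ Θ * y) * φ B := by
    rw [map_add, map_mul, map_mul, map_natCast, ← e]; ring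
  rw [e1] at h1 h2
  refine ⟨left_ne_zero_of_mul h1, ?_⟩
  have := mul_mem h2 (loc_mem hΘ B)
  rwa [mul_inv, inv_mul_cancel_right₀ h3] at this

lemma loc_one (hφ : Function.Injective φ) (hy : y ∈ Loc φ hΘ) :
    ∃ y' ∈ Loc φ hΘ, (1 + φ Θ * y)⁻¹ = 1 + φ Θ * y' := by
  obtain ⟨h1, h2⟩ := loc_unit hφ (n := 1) (by simpa using hΘ.not_dvd_one) hy
  rw [Nat.cast_one] at h1 h2
  exact ⟨-(y * (1 + φ Θ * y)⁻¹), neg_mem (mul_mem hy h2), by field_simp; ring⟩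

variable (φ hΘ σ) in
/-- The leading coefficient is fixed. -/
def Lead (z : L) : Prop := ∃ y ∈ Loc φ hΘ, σ z = z * (1 + φ Θ * y)

lemma Lead.mul (h : Lead φ hΘ σ y) (h' : Lead φ hΘ σ z) : Lead φ hΘ σ (y * z) := by
  obtain ⟨a, ha, e⟩ := h
  obtain ⟨b, hb, e'⟩ := h'
  exact ⟨a + b + φ Θ * a * b, add_mem (add_mem ha hb)
    (mul_mem (mul_mem (loc_mem hΘ Θ) ha) hb), by rw [map_mul, e, e']; ring⟩

lemma Lead.inv (hφ : Function.Injective φ) (h : Lead φ hΘ σ z) : Lead φ hΘ σ z⁻¹ := by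
  obtain ⟨a, ha, e⟩ := h
  obtain ⟨b, hb, e'⟩ := loc_one hφ ha
  exact ⟨b, hb, by rw [map_inv₀, e, mul_inv, e']⟩

lemma fix_lead (h : z ∈ Fix φ hΘ σ) (h' : z⁻¹ ∈ Loc φ hΘ) (h0 : z ≠ 0) : Lead φ hΘ σ z := by
  obtain ⟨-, a, ha, e⟩ := h
  exact ⟨a * z⁻¹, mul_mem ha h', by rw [e]; field_simp⟩

lemma fix_inv (hφ : Function.Injective φ) (h : z ∈ Fix φ hΘ σ) (h' : z⁻¹ ∈ Loc φ hΘ) :
    z⁻¹ ∈ Fix φ hΘ σ := by
  rcases eq_or_ne z 0 with rfl | h0
  · simpa using h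
  obtain ⟨a, ha, e⟩ := (fix_lead h h' h0).inv hφ
  exact ⟨h', z⁻¹ * a, mul_mem h' ha, by rw [e]; ring⟩

/-- Invariants of a power are invariants. -/
lemma unip [IsDomain R] [WfDvdMonoid R] (hφ : Function.Injective φ) (h : ∀ P, φ P ∈ Fix φ hΘ σ)
    (hθ : σ (φ Θ) = φ Θ) {A B : R} (hz : z = φ A / φ B) {N : ℕ} (hN : ¬Θ ∣ N)
    (e : σ^[N] z = z) : σ z = z := by
  have h1 : ∀ P, Lead φ hΘ σ (φ P) := fun P => by
    rcases eq_or_ne P 0 with rfl | h0
    · exact ⟨0, zero_mem _, by simp⟩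
    obtain ⟨j, Q, hQ, rfl⟩ := WfDvdMonoid.max_power_factor h0 hΘ.irreducible
    obtain ⟨q0, q1⟩ := loc_inv hΘ hφ hQ
    rw [map_mul]
    exact .mul ⟨0, zero_mem _, by simp [hθ]⟩ (fix_lead (h Q) q1 q0)
  have h2 : ∀ y ∈ Loc φ hΘ, y ∈ Fix φ hΘ σ ∧ Lead φ hΘ σ y := fun y ⟨P, Q, hQ, e⟩ => by
    obtain ⟨q0, q1⟩ := loc_inv hΘ hφ hQ
    rw [(eq_mul_inv_iff_mul_eq₀ q0).2 e]
    exact ⟨mul_mem (h P) (fix_inv hφ (h Q) q1), (h1 P).mul ((h1 Q).inv hφ)⟩
  have h3 : ∀ y ∈ Loc φ hΘ, σ y ∈ Loc φ hΘ := fun y hy => by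
    obtain ⟨-, a, ha, e⟩ := (h2 y hy).1
    exact e ▸ add_mem hy (mul_mem (loc_mem hΘ Θ) ha)
  obtain ⟨a, ha, ea⟩ := (h1 A).mul ((h1 B).inv hφ)
  rw [← div_eq_mul_inv, ← hz] at ea
  obtain ⟨b, hb, eb⟩ : Lead φ hΘ σ (z * φ Θ * a) :=
    .mul (.mul ⟨a, ha, ea⟩ (h1 Θ)) (h2 a ha).2
  have key : ∀ n : ℕ, ∃ y ∈ Loc φ hΘ, σ^[n] z = z + z * φ Θ * a * (n + φ Θ * y) := fun n => by
    induction n with
    | zero => exact ⟨0, zero_mem _, by simp⟩
    | succ n ih =>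
      obtain ⟨y, hy, ih⟩ := ih
      refine ⟨σ y + b * (n + φ Θ * σ y), add_mem (h3 y hy) (mul_mem hb (add_mem (natCast_mem _ n)
        (mul_mem (loc_mem hΘ Θ) (h3 y hy)))), ?_⟩
      rw [Function.iterate_succ_apply', ih, map_add, map_mul σ (z * φ Θ * a), eb, ea, map_add,
        map_natCast, map_mul, hθ, Nat.cast_succ]
      ring
  obtain ⟨y, hy, e1⟩ := key N
  rw [e, left_eq_add, mul_eq_zero, or_iff_left (loc_unit hφ hN hy).1] at e1
  rw [ea]
  linear_combination e1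

end Loc

open H17.Cm (grad rf dv top aff)
open H32 (Mir pos dir pt edge St Pts Qd)
open H42 (Gen mp)

variable {k C L ι : Type} [Field k] [Algebra k ℝ] [Field C] [Algebra k C] [Field L]
  [Algebra C L] [CharZero L] [IsAlgClosed C] [Fintype ι] [DecidableEq ι] {m : Mir k C ι}
  {l l' : ι ⊕ ι → L} {t t' : L}

/-- Points of generic edges are conjugate. -/
theorem sig [IsAlgClosed L] (hl : Gen C l) (hl' : Gen C l') (ht : t ∈ Pts m l)
    (ht' : t' ∈ Pts m l') : ∃ σ : L ≃ₐ[C] L, mp σ l = l' ∧ σ t = t' := by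
  obtain ⟨σ, hσ⟩ := H96A.Bt.conj_fam (C := C) l l' fun F =>
    ⟨fun h => by rw [hl F h, map_zero], fun h => by rw [hl' F h, map_zero]⟩
  have e : mp σ l = l' := funext hσ
  rcases eq_or_ne (σ t) t' with h | h
  · exact ⟨σ, e, h⟩
  have h1 := (H32.mem_pts.1 (e ▸ H32.pts_map σ ht)).2
  have h2 := (H32.mem_pts.1 ht').2
  obtain ⟨g, hg, g1, -⟩ := H2.Sc.two hl' (H2.Sc.ap_of m.prime.irreducible) h h.symm h1 h2 h2 h1
  exact ⟨g * σ, by rw [← H32.mp_eq hg, ← e]; rfl, g1⟩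

omit [IsAlgClosed C] in
/-- The parameter and the direction are independent over the field of the point. -/
lemma indep (hl : Gen C l) (h0 : MvPolynomial.aeval (pt l t) m.f = 0) :
    AlgebraicIndependent (IntermediateField.adjoin C (range (pt l t)))
      fun o : Option ι => o.elim t (dir l) := by
  refine H17.Cm.indep_of_dual fun j => ?_
  obtain ⟨D, d1, d2, d3⟩ := H2.Sc.gen_free hl m.prime.irreducible h0 0
    (fun i => (Pi.single j 1 : Option ι → L) (some i)) ((Pi.single j 1 : Option ι → L) none)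
    (by simp)
  have h : ∀ c : IntermediateField.adjoin C (range (pt l t)), D c = 0 := fun c =>
    H96.Kil.cl (S := range (pt l t)) (by rintro _ ⟨i, rfl⟩; exact congrFun d1 i) _
      (IntermediateField.adjoin_le_iff.2 (H88.subset_cl _) c.2)
  refine ⟨⟨⟨D.toLinearMap.toAddHom, fun c x => ?_⟩, D.map_one_eq_zero, D.leibniz⟩,
    funext fun o => ?_⟩
  · simp [IntermediateField.smul_def, h]
  · cases o
    exacts [d3, congrFun d2 _]

/-- An invariant of a power of the billiard map of a quadric is an invariant. -/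
theorem uni (hm : Qd m) (hl : Gen C l) (hs : St m l t l') (ht : t' ∈ Pts m l') (hne : t' ≠ t)
    {σ : L ≃ₐ[C] L} (h1 : mp σ l = l') (h2 : σ t = t') {z : L}
    (hz : z ∈ IntermediateField.adjoin C (range l ∪ {t})) {N : ℕ} (hN : 0 < N)
    (e : (σ ^ N) z = z) : σ z = z := by
  have on := H32.gen_on hl hs.zero
  have hi := indep hl hs.zero
  have eq : σ ∘ pt l t = pt l t + (t' - t) • dir l' := by
    rw [← H32.pt_mp, h1, h2, ← hs.pt_eq, pt, pt]; module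
  have eu : σ ∘ dir l = rf (grad m.f (pt l t)) (dir l) := by rw [← H32.dir_mp, h1, hs.dir_eq]
  have e0 : MvPolynomial.aeval (pt l t + (t' - t) • dir l') m.f = 0 := by
    rw [← eq, ← H32.pt_mp, h1, h2]; exact (H32.mem_pts.1 ht).2
  have el : l = edge (pt l t) (dir l) t := (H32.edge_pt l t).symm
  rw [hs.dir_eq] at eq e0
  generalize pt l t = q at *
  generalize dir l = u at *
  obtain ⟨K, hK⟩ : ∃ K, K = IntermediateField.adjoin C (range q) := ⟨_, rfl⟩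
  rw [← hK] at hi
  have hq : ∀ i, q i ∈ K := fun i => hK ▸ IntermediateField.subset_adjoin _ _ ⟨i, rfl⟩
  obtain ⟨n, hn⟩ : ∃ n : ι → K, ∀ i, (n i : L) = grad m.f q i :=
    ⟨grad m.f fun i => (⟨q i, hq i⟩ : K), fun i =>
      (MvPolynomial.aeval_algebraMap_apply L (fun i => (⟨q i, hq i⟩ : K)) _).symm⟩
  have nn := on.nn
  obtain ⟨v, v1, v2⟩ := H17.Cm.exists_tan hm on on.grad_ne
  rw [H17.Cm.aeval_two hm, on.zero, H17.Cm.dot_rf nn] at e0
  have eθ : σ (grad m.f q ⬝ᵥ u) = grad m.f (q + (t' - t) • rf (grad m.f q) u) ⬝ᵥ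
    rf (grad m.f q) u := by rw [← H32.dot_map, ← H32.grad_map, eq, eu]
  rw [H17.Cm.grad_two hm, H17.Cm.dot_rf nn] at eθ
  generalize grad m.f q = N0 at *
  have e1 : top m.f (rf N0 u) * (t' - t) = N0 ⬝ᵥ u :=
    mul_right_cancel₀ (sub_ne_zero.2 hne) (by linear_combination e0)
  let ψ : (ι → L) → MvPolynomial (Option ι) K →ₐ[K] L := fun w =>
    MvPolynomial.aeval fun o => o.elim t w
  let Θ : MvPolynomial (Option ι) K := ∑ i, .C (n i) * .X (some i)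
  have pΘ : ∀ w, ψ w Θ = N0 ⬝ᵥ w := fun w => by simp [ψ, Θ, hn, dotProduct]
  have hΘ : Prime Θ := by
    have := H17.Cm.prime_aff (h := H17.Cm.vec fun o : Option ι => o.elim 0 n) fun e => nn <| by
      rw [show N0 = 0 from funext fun i => by rw [← hn, show n i = 0 from congrFun e (some i)]; rfl]
      simp
    simpa [H17.Cm.aff_eq, H17.Cm.vec, Θ, mul_comm] using this
  let U : ι → MvPolynomial (Option ι) K := fun i =>
    .X (some i) - .C ((n i + n i) / n ⬝ᵥ n) * Θ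
  have pU : ∀ w i, ψ w (U i) = rf N0 w i := fun w i => by
    have : ((n ⬝ᵥ n : K) : L) = N0 ⬝ᵥ N0 := by simp [dotProduct, hn]
    simp only [U, map_sub, map_mul, pΘ]
    simp [ψ, rf, hn, this]
    ring
  let W := MvPolynomial.aeval U (MvPolynomial.homogeneousComponent m.f.totalDegree m.f)
  have pW : ∀ w, ψ w W = top m.f (rf N0 w) := fun w =>
    (MvPolynomial.comp_aeval_apply U ((ψ w).restrictScalars C) _).trans
      (by simp only [top, ← funext (pU w)]; rfl)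
  have hφ : Function.Injective (ψ u : MvPolynomial (Option ι) K →+* L) := hi
  obtain ⟨w0, w1⟩ := loc_inv hΘ hφ (B := W) fun ⟨y, hy⟩ => v2 <| by
    rw [← H17.Cm.rf_of_dot v1, ← pW, hy, map_mul, pΘ, v1, zero_mul]
  change ψ u W ≠ 0 at w0
  change (ψ u W)⁻¹ ∈ _ at w1
  rw [pW] at w0 w1
  have e2 : t' - t = ψ u Θ * (top m.f (rf N0 u))⁻¹ := by rw [pΘ, ← e1]; field_simp
  have mK : ∀ c : K, (c : L) ∈ Loc (ψ u : MvPolynomial (Option ι) K →+* L) hΘ := fun c => by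
    simpa [ψ] using loc_mem (φ := (ψ u : MvPolynomial (Option ι) K →+* L)) hΘ (.C c)
  have fK : ∀ c ∈ K, c ∈ Fix (ψ u : MvPolynomial (Option ι) K →+* L) hΘ (σ : L →+* L) := fun c hc => by
    have hc' := hc
    rw [hK] at hc'
    induction hc' using IntermediateField.adjoin_induction with
    | mem x hx =>
      obtain ⟨i, rfl⟩ := hx
      exact ⟨mK ⟨_, hc⟩, _, mul_mem w1 (pU u i ▸ loc_mem hΘ (U i)), (congrFun eq i).trans (by
        simp [e2, mul_assoc])⟩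
    | algebraMap x => exact ⟨mK ⟨_, hc⟩, 0, zero_mem _, by simp⟩
    | add x y hx hy ix iy => exact add_mem (ix (hK ▸ hx)) (iy (hK ▸ hy))
    | mul x y hx hy ix iy => exact mul_mem (ix (hK ▸ hx)) (iy (hK ▸ hy))
    | inv x hx ix => exact fix_inv hφ (ix (hK ▸ hx)) (mK ⟨_, hc⟩)
  have fR : ∀ P, (ψ u : MvPolynomial (Option ι) K →+* L) P ∈ Fix (ψ u : MvPolynomial (Option ι) K →+* L) hΘ (σ : L →+* L) := fun P => by
    induction P using MvPolynomial.induction_on with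
    | C c => simpa [ψ] using fK c c.2
    | add P Q hP hQ => simpa using add_mem hP hQ
    | mul_X P o hP =>
      rw [map_mul]
      refine mul_mem hP ⟨loc_mem hΘ _, ?_⟩
      cases o with
      | none => exact ⟨_, w1, by simpa [ψ, h2, sub_eq_iff_eq_add'] using e2⟩
      | some i =>
        refine ⟨_, mK (-((n i + n i) / n ⬝ᵥ n)), ?_⟩
        have := (congrFun eu i).trans (pU u i).symm
        simp only [U, map_sub, map_mul] at this
        simpa [ψ, mul_comm, sub_eq_add_neg] using this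
  obtain ⟨a, ha, b, hb, rfl⟩ := IntermediateField.mem_adjoin_iff_div.1 hz
  have hR : Algebra.adjoin C (range l ∪ {t}) ≤ ((ψ u).restrictScalars C).range := by
    refine Algebra.adjoin_le (union_subset ?_ (singleton_subset_iff.2 ⟨.X none, by simp [ψ]⟩))
    rw [el]
    rintro _ ⟨i | i, rfl⟩
    · exact ⟨.C ⟨q i, hq i⟩ - .X none * .X (some i), by simp [ψ, edge]⟩
    · exact ⟨.X (some i), by simp [ψ, edge]⟩
  obtain ⟨A, rfl⟩ := hR ha
  obtain ⟨B, rfl⟩ := hR hb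
  have : CharZero K := (algebraMap K L).charZero
  refine unip (σ := (σ : L →+* L)) hφ fR (A := A) (B := B) (N := N) ?_ rfl
    (fun hd => hΘ.not_unit (isUnit_of_dvd_unit hd ?_)) ?_
  · change σ (ψ u Θ) = ψ u Θ
    rw [pΘ, eθ]
    linear_combination 2 * e1
  · simpa using ((Nat.cast_ne_zero (R := K)).2 hN.ne').isUnit.map MvPolynomial.C
  · exact (congrFun (AlgEquiv.coe_pow σ N) _).symm.trans e

end Pool.Agent.MP_249f74_an.H92
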