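import Pool.Agent.MP_249f74_an.H17.CmBer
import Pool.Agent.MP_249f74_an.H32.Move

/-!
Moving the quadric in its confocal family with a fixed reflected line.
-/

open Matrix hiding vec J

namespace Pool.Agent.MP_249f74_an.H92

open H17.Cm (hat vec sp J dv grad hat_dot vec_dot J_mulVec dv_add dv_sub dv_smul dv_dot)

variable {C L ι : Type} [Field C] [Field L] [Algebra C L] [Fintype ι] [DecidableEq ι]

omit [Fintype ι] [DecidableEq ι] in
lemma dv_vec (d : Derivation C L L) (v : ι → L) : dv d (vec v) = vec (dv d v) := by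
  ext (_ | i) <;> simp [dv, vec]

omit [Fintype ι] [DecidableEq ι] in
lemma dv_hat (d : Derivation C L L) (v : ι → L) : dv d (hat v) = vec (dv d v) := by
  ext (_ | i) <;> simp [dv, vec, hat]

omit [DecidableEq ι] in
lemma dv_mulVec (d : Derivation C L L) (A : Matrix ι ι C) (v : ι → L) :
    dv d (A.map (algebraMap C L) *ᵥ v) = A.map (algebraMap C L) *ᵥ dv d v := by
  ext i; simp [dv, mulVec, dotProduct]

/-- The derivative of a vector with a fixed reflection. -/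
lemma dsr [CharZero L] (d : Derivation C L L) {k x : Option ι → L} (e0 : sp k ⬝ᵥ sp k ≠ 0)
    (h : dv d (x - (2 * (k ⬝ᵥ x) / (sp k ⬝ᵥ sp k)) • vec (sp k)) = 0) :
    (sp k ⬝ᵥ sp k) • dv d x =
      (2 * (k ⬝ᵥ x)) • vec (sp (dv d k)) - (2 * (dv d k ⬝ᵥ x)) • vec (sp k) := by
  obtain ⟨γ, hγ⟩ : ∃ γ, γ = 2 * (k ⬝ᵥ x) / (sp k ⬝ᵥ sp k) := ⟨_, rfl⟩
  rw [← hγ, dv_sub, dv_smul, dv_vec, sub_eq_zero] at h
  change _ = _ + γ • vec (sp (dv d k)) at h
  rw [eq_div_iff e0] at hγ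
  have h1 := congrArg d hγ
  have h2 : d 2 = 0 := by simpa using d.map_natCast 2
  rw [Derivation.leibniz, Derivation.leibniz, dv_dot, dv_dot, h, h2, dotProduct_add,
    dotProduct_smul, dotProduct_smul, dotProduct_comm k, dotProduct_comm k, vec_dot, vec_dot,
    dotProduct_comm (sp k) (dv d (sp k))] at h1
  change γ • (sp (dv d k) ⬝ᵥ sp k + sp (dv d k) ⬝ᵥ sp k) + _ = _ at h1
  simp only [smul_eq_mul] at h1
  rw [h, smul_add, smul_smul, smul_smul, ← hγ, show sp k ⬝ᵥ sp k * d γ = -(2 * (dv d k ⬝ᵥ x)) by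
    linear_combination -h1]
  module

/-- The eigenvector relation for the member of the family. -/
lemma core [CharZero L] (d : Derivation C L L) {A : Matrix (Option ι) (Option ι) C}
    {B : Matrix (Option ι) (Option ι) L} {μ s α β t : L} {a b N : ι → L} {k : Option ι → L}
    (hB : B = adjugate (1 - μ • (A.map (algebraMap C L) * J ι L)) * A.map (algebraMap C L))
    (sB : B.IsSymm) (hk : k = B *ᵥ (α • hat a + β • vec b)) (hb : k ⬝ᵥ vec b = s * α)
    (ha : k ⬝ᵥ hat a = -(s * β)) (e0 : sp k ⬝ᵥ sp k ≠ 0) (d1 : d μ = 1)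
    (da : dv d (hat a - (2 * (k ⬝ᵥ hat a) / (sp k ⬝ᵥ sp k)) • vec (sp k)) = 0)
    (db : dv d (vec b - (2 * (k ⬝ᵥ vec b) / (sp k ⬝ᵥ sp k)) • vec (sp k)) = 0)
    (hN : N ⬝ᵥ (dv d a + t • dv d b) = 0) :
    (B *ᵥ hat (a + t • b) ⬝ᵥ hat (a + t • b)) * (B *ᵥ vec b ⬝ᵥ vec N) =
      (B *ᵥ vec b ⬝ᵥ hat (a + t • b)) * (B *ᵥ hat (a + t • b) ⬝ᵥ vec N) := by
  obtain ⟨A', hA'⟩ : ∃ A', A' = A.map (algebraMap C L) := ⟨_, rfl⟩
  obtain ⟨M, hM⟩ : ∃ M, M = 1 - μ • (A' * J ι L) := ⟨_, rfl⟩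
  obtain ⟨Y, hY⟩ : ∃ Y, Y = α • hat a + β • vec b := ⟨_, rfl⟩
  obtain ⟨W, hW⟩ : ∃ W, W = d α • hat a + d β • vec b := ⟨_, rfl⟩
  obtain ⟨e, he⟩ : ∃ e, e = sp k ⬝ᵥ sp k := ⟨_, rfl⟩
  rw [← hA', ← hM] at hB
  have a1 := dsr d e0 da
  have a2 := dsr d e0 db
  rw [← he] at a1 a2 e0
  have a3 : ∀ X, M *ᵥ X = X - μ • A' *ᵥ vec (sp X) := fun X => by
    rw [hM, sub_mulVec, one_mulVec, smul_mulVec, ← mulVec_mulVec, J_mulVec]
  have a4 : k - μ • A' *ᵥ vec (sp k) = M.det • A' *ᵥ Y := by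
    rw [← a3, hk, ← hY, hB, mulVec_mulVec, ← Matrix.mul_assoc, mul_adjugate, smul_mul,
      Matrix.one_mul, smul_mulVec]
  have a5 : M *ᵥ dv d k = A' *ᵥ (vec (sp k) + d M.det • Y + M.det • dv d Y) := by
    have := congrArg (dv d) a4
    rw [dv_sub, dv_smul, dv_smul, hA', dv_mulVec, dv_mulVec, ← hA', dv_vec, d1] at this
    change _ - (_ + μ • A' *ᵥ vec (sp (dv d k))) = _ at this
    rw [a3, mulVec_add, mulVec_add, mulVec_smul, mulVec_smul]
    linear_combination (norm := module) this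
  have a6 : M.det • dv d k = B *ᵥ (vec (sp k) + d M.det • Y + M.det • dv d Y) := by
    rw [hB, ← mulVec_mulVec, ← a5, mulVec_mulVec, adjugate_mul, smul_mulVec, one_mulVec]
  have a7 : k ⬝ᵥ Y = 0 := by
    rw [hY, dotProduct_add, dotProduct_smul, dotProduct_smul, ha, hb]; simp; ring
  have a8 := congrArg d a7
  rw [dv_dot, map_zero] at a8
  have kv : k ⬝ᵥ vec (sp k) = e := by rw [dotProduct_comm, vec_dot, he]
  have a9 : 2 * M.det * (dv d k ⬝ᵥ Y) = e := by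
    have := congrArg (Y ⬝ᵥ ·) a6
    simp only [H17.Cm.symm_dot sB Y, ← hY ▸ hk, dotProduct_smul, dotProduct_add,
      dotProduct_comm _ k, kv, a7, smul_eq_mul, dotProduct_comm Y, smul_dotProduct] at this
    linear_combination this + M.det * a8
  have D0 : M.det ≠ 0 := fun h => e0 (by rw [← a9, h]; ring)
  have b1 : e • dv d Y = e • W - (2 * (dv d k ⬝ᵥ Y)) • vec (sp k) := by
    have h7 := a7
    rw [hY, dotProduct_add, dotProduct_smul, dotProduct_smul, smul_eq_mul, smul_eq_mul] at h7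
    rw [hY, hW, dv_add, dv_smul, dv_smul, dotProduct_add, dotProduct_smul, dotProduct_smul,
      smul_eq_mul, smul_eq_mul]
    linear_combination (norm := module) α • a1 + β • a2 + (2 * h7) • vec (sp (dv d k))
  have b2 : vec (sp k) + M.det • dv d Y = M.det • W := by
    refine smul_right_injective _ e0 ?_
    linear_combination (norm := module) M.det • b1 - a9 • vec (sp k)
  have b3 : M.det • dv d k = d M.det • k + M.det • B *ᵥ W := by
    rw [a6, add_right_comm, b2, mulVec_add, mulVec_smul, mulVec_smul, hk, hY, add_comm]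
  have b4 : α * d β - β * d α ≠ 0 := fun h => e0 <| by
    have := congrArg (k ⬝ᵥ ·) b2
    simp only [hW, dotProduct_add, dotProduct_smul, ha, hb, kv, smul_eq_mul] at this
    linear_combination 2 * this + 2 * M.det * s * h - 2 * M.det * a8 + a9
  have b5 : (k ⬝ᵥ hat (a + t • b)) * (dv d k ⬝ᵥ vec N) =
      (dv d k ⬝ᵥ hat (a + t • b)) * (k ⬝ᵥ vec N) := by
    have h1 := congrArg (N ⬝ᵥ sp ·) a1
    have h2 := congrArg (N ⬝ᵥ sp ·) a2
    simp only [dv_hat, dv_vec, H17.Cm.sp_smul, H17.Cm.sp_sub, H17.Cm.sp_vec, dotProduct_smul,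
      dotProduct_sub, smul_eq_mul, dotProduct_add] at h1 h2 hN
    simp only [H17.Cm.hat_add, H17.Cm.vec_smul, dotProduct_add, dotProduct_smul, smul_eq_mul,
      dotProduct_comm _ (vec N), vec_dot]
    linear_combination (e / 2) * hN - h1 / 2 - t * h2 / 2
  have b6 := congrArg (· ⬝ᵥ vec N) b3
  have b7 := congrArg (· ⬝ᵥ hat (a + t • b)) b3
  generalize hp : hat (a + t • b) = p at *
  rw [← hp, H17.Cm.hat_add, H17.Cm.vec_smul, mulVec_add, mulVec_smul, ← H17.Cm.vec_smul,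
    ← H17.Cm.hat_add, hp]
  generalize dv d k = k' at *
  simp only [hk, hW, mulVec_add, mulVec_smul, add_dotProduct, smul_dotProduct, smul_eq_mul]
    at b5 b6 b7 ⊢
  refine mul_left_cancel₀ (mul_ne_zero D0 b4) ?_
  linear_combination M.det * b5 + (α * (B *ᵥ hat a ⬝ᵥ vec N) + β * (B *ᵥ vec b ⬝ᵥ vec N)) * b7 -
    (α * (B *ᵥ hat a ⬝ᵥ p) + β * (B *ᵥ vec b ⬝ᵥ p)) * b6

end Pool.Agent.MP_249f74_an.H92
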