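import Pool.Agent.MP_249f74_an.H17.CmBerq
import Pool.Agent.MP_249f74_an.H92.Core

/-!
Confocal families: the case of a free parameter.
-/

open Matrix hiding vec J

namespace Pool.Agent.MP_249f74_an.H92

open H17.Cm (hat vec sp J dv grad hat_dot vec_dot dv_add dv_sub dv_smul dv_dot quad tv)
open H32 (Mir pos dir pt edge Tl Cm)

variable {k C Ω L ι : Type} [Field k] [Algebra k ℝ] [Field C] [Algebra k C] [Field Ω]
  [Algebra C Ω] [Field L] [Algebra C L] [Fintype ι] [DecidableEq ι]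

lemma map_form {R S : Type} [CommRing R] [CommRing S] (φ : R →+* S)
    (A : Matrix (Option ι) (Option ι) R) (ν : R) (x y : Option ι → R) :
    φ ((adjugate (1 - ν • (A * J ι R)) * A) *ᵥ x ⬝ᵥ y) =
      (adjugate (1 - φ ν • (A.map φ * J ι S)) * A.map φ) *ᵥ (φ ∘ x) ⬝ᵥ (φ ∘ y) := by
  have e : (1 - ν • (A * J ι R)).map φ = 1 - φ ν • (A.map φ * J ι S) := by
    rw [← H17.Cm.J_map φ, ← Matrix.map_mul]
    ext i j
    simp [one_apply, apply_ite φ, mul_apply]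
  have e2 := φ.map_adjugate (1 - ν • (A * J ι R))
  simp only [RingHom.mapMatrix_apply] at e2
  rw [RingHom.map_dotProduct, ← e, ← e2, ← Matrix.map_mul]
  congr 1
  exact funext fun i => φ.map_mulVec _ _ i

lemma at_zero [Algebra Ω L] {μ : L} (hμ : Transcendental Ω μ)
    (A : Matrix (Option ι) (Option ι) Ω) (x y z : Option ι → Ω)
    {B : Matrix (Option ι) (Option ι) L}
    (hB : B = adjugate (1 - μ • (A.map (algebraMap Ω L) * J ι L)) * A.map (algebraMap Ω L))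
    (h : (B *ᵥ (algebraMap Ω L ∘ x) ⬝ᵥ (algebraMap Ω L ∘ x)) *
        (B *ᵥ (algebraMap Ω L ∘ y) ⬝ᵥ (algebraMap Ω L ∘ z)) =
      (B *ᵥ (algebraMap Ω L ∘ y) ⬝ᵥ (algebraMap Ω L ∘ x)) *
        (B *ᵥ (algebraMap Ω L ∘ x) ⬝ᵥ (algebraMap Ω L ∘ z))) :
    (A *ᵥ x ⬝ᵥ x) * (A *ᵥ y ⬝ᵥ z) = (A *ᵥ y ⬝ᵥ x) * (A *ᵥ x ⬝ᵥ z) := by
  obtain ⟨g, hg⟩ : ∃ g : (Option ι → Ω) → (Option ι → Ω) → Polynomial Ω, ∀ v w, g v w =
      (adjugate (1 - (Polynomial.X : Polynomial Ω) • (A.map Polynomial.C * J ι _)) *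
        A.map Polynomial.C) *ᵥ (Polynomial.C ∘ v) ⬝ᵥ (Polynomial.C ∘ w) := ⟨_, fun _ _ => rfl⟩
  have h1 : ∀ v w, Polynomial.aeval μ (g v w) =
      B *ᵥ (algebraMap Ω L ∘ v) ⬝ᵥ (algebraMap Ω L ∘ w) := fun v w => by
    have := map_form (Polynomial.aeval μ : Polynomial Ω →ₐ[Ω] L).toRingHom (A.map Polynomial.C)
      Polynomial.X (Polynomial.C ∘ v) (Polynomial.C ∘ w)
    rw [hg, hB]
    simpa [Function.comp_def] using this
  have h2 : ∀ v w, (g v w).eval 0 = A *ᵥ v ⬝ᵥ w := fun v w => by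
    have := map_form (Polynomial.evalRingHom (0 : Ω)) (A.map Polynomial.C)
      Polynomial.X (Polynomial.C ∘ v) (Polynomial.C ∘ w)
    rw [hg]
    simpa [Function.comp_def] using this
  have := congrArg (Polynomial.eval 0) (transcendental_iff.1 hμ (g x x * g y z - g y x * g x z)
    (by simp only [map_sub, map_mul, h1, h, sub_self]))
  simpa only [Polynomial.eval_sub, Polynomial.eval_mul, h2, Polynomial.eval_zero,
    sub_eq_zero] using this

omit [DecidableEq ι] in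
/-- The direction of a tangent edge turns freely about the point of contact. -/
lemma turn [CharZero Ω] {m : Mir k C ι} {l : ι ⊕ ι → Ω} {t : Ω} (hc : H42.Cur C l)
    (h0 : m.On (pt l t)) (h : grad m.f (pt l t) ⬝ᵥ dir l = 0) {v : ι → Ω}
    (hv : grad m.f (pt l t) ⬝ᵥ v = 0) :
    ∃ D : Derivation C Ω Ω, dv D (pt l t) = 0 ∧ dv D (dir l) = v := by
  obtain ⟨π, hπ, he⟩ := hc
  obtain ⟨μ, -, hμ⟩ := H32.grad_tan hπ he h0.zero h0.grad_ne h
  obtain ⟨D, hD⟩ := H32.ex_tan he (v := edge 0 v t) (by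
    rw [hμ, smul_dotProduct, H32.dot_edge]
    change μ • (grad m.f (pt l t) ⬝ᵥ (0 - t • v) + (t • grad m.f (pt l t)) ⬝ᵥ v) = 0
    simp)
  have h1 := H32.der_pt D l t
  rw [funext hD, H32.pt_edge, zero_add] at h1
  have h2 := congrArg D h
  have h3 : ∀ i, D (grad m.f (pt l t) i) =
      D t * (grad (MvPolynomial.pderiv i m.f) (pt l t) ⬝ᵥ dir l) := fun i => by
    rw [grad, H32.der_ev, h1, dotProduct_smul, smul_eq_mul]
  have h4 : (fun i => D (dir l i)) = v := funext fun i => hD (.inr i)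
  rw [H32.der_dot, h4, hv, map_zero, funext h3, add_zero] at h2
  have h5 : D t * (H32.sec m.f l).derivative.derivative.eval t = 0 := by
    rw [← h2, H32.sec, H32.eval_der2, ← smul_eq_mul, ← smul_dotProduct]; rfl
  rw [(mul_eq_zero.1 h5).resolve_right (H32.contact hπ he h0 h).1, zero_smul] at h1
  exact ⟨D, h1, h4⟩

/-- A relation along a generic tangent edge gives a commuting pair. -/
lemma cm_of_rel [IsAlgClosed C] [CharZero Ω] {m m' : Mir k C ι} (hne : m' ≠ m)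
    {A : Matrix (Option ι) (Option ι) C} (hA : A.IsSymm) {a : C} (hf : m.f = a • quad A)
    {l : ι ⊕ ι → Ω} {t : Ω} (hc : H42.Cur C l) (h0 : m'.On (pt l t)) {N : ι → Ω}
    (hN : N = grad m'.f (pt l t)) (h : N ⬝ᵥ dir l = 0) {A' : Matrix (Option ι) (Option ι) Ω}
    (hA' : A' = A.map (algebraMap C Ω))
    (e : (A' *ᵥ hat (pt l t) ⬝ᵥ hat (pt l t)) * (A' *ᵥ vec (dir l) ⬝ᵥ vec N) =
      (A' *ᵥ vec (dir l) ⬝ᵥ hat (pt l t)) * (A' *ᵥ hat (pt l t) ⬝ᵥ vec N)) : Cm m m' := by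
  have sA : A'.IsSymm := hA' ▸ hA.map _
  obtain ⟨p, hp⟩ : ∃ p, p = pt l t := ⟨_, rfl⟩
  obtain ⟨r, hr⟩ : ∃ r, r = hat p ⬝ᵥ A' *ᵥ hat p := ⟨_, rfl⟩
  obtain ⟨w, hw⟩ : ∃ w, w = hat p ⬝ᵥ A' *ᵥ vec N := ⟨_, rfl⟩
  obtain ⟨ζ, hζ⟩ : ∃ ζ, ζ = r • A' *ᵥ vec N - w • A' *ᵥ hat p := ⟨_, rfl⟩
  have r0 : r ≠ 0 := fun h1 => hne <| (Mir.ext_of_associated <|
    m'.prime.irreducible.associated_of_dvd m.prime.irreducible <| (h0 _).1 <| by
      rw [hf, map_smul, H17.Cm.aeval_quad, ← hA', ← hp, ← hr, h1, smul_zero])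
  have z1 : hat p ⬝ᵥ ζ = 0 := by
    rw [hζ, dotProduct_sub, dotProduct_smul, dotProduct_smul, ← hr, ← hw, smul_eq_mul,
      smul_eq_mul, mul_comm, sub_self]
  have z2 : vec (dir l) ⬝ᵥ ζ = 0 := by
    rw [← hp, dotProduct_comm, ← hr, dotProduct_comm, dotProduct_comm _ (hat p),
      dotProduct_comm _ (vec N), H17.Cm.symm_dot sA (vec N), H17.Cm.symm_dot sA (vec N),
      H17.Cm.symm_dot sA (hat p), ← hw] at e
    rw [hζ, dotProduct_sub, dotProduct_smul, dotProduct_smul, smul_eq_mul, smul_eq_mul, e,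
      mul_comm, sub_self]
  have z3 : ∀ v, N ⬝ᵥ v = 0 → v ⬝ᵥ sp ζ = 0 := fun v hv => by
    obtain ⟨D, h1, h2⟩ := turn hc h0 (hN ▸ h) (hN ▸ hv)
    have h3 : dv D (vec N) = 0 := by
      rw [dv_vec, hN, H17.Cm.dv_grad h1]; ext (_ | i) <;> rfl
    have h4 : dv D (hat p) = 0 := by
      rw [dv_hat, hp, h1]; ext (_ | i) <;> rfl
    have h5 : dv D ζ = 0 := by
      simp [hζ, hr, hw, hA', dv_sub, dv_smul, dv_dot, dv_mulVec, h3, h4]
    have := congrArg D z2
    rwa [dv_dot, h5, dotProduct_zero, add_zero, dv_vec, h2, map_zero, vec_dot] at this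
  have nn : N ⬝ᵥ N ≠ 0 := hN ▸ h0.nn
  have z4 : sp ζ = (N ⬝ᵥ sp ζ / N ⬝ᵥ N) • N := funext fun i => by
    have := z3 ((N ⬝ᵥ N) • Pi.single i 1 - N i • N) (by simp [mul_comm])
    simp only [sub_dotProduct, smul_dotProduct, single_dotProduct, smul_eq_mul, one_mul] at this
    rw [Pi.smul_apply, smul_eq_mul]
    field_simp
    linear_combination this
  generalize N ⬝ᵥ sp ζ / N ⬝ᵥ N = c at z4
  have z5 : ζ = c • tv m'.f p := funext fun o => by
    cases o with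
    | none =>
      rw [hat_dot, z4, dotProduct_smul] at z1
      rw [Pi.smul_apply, tv, H17.Cm.aeval_tg, hp, ← hN, ← hp]
      simp only [Option.elim, smul_eq_mul] at z1 ⊢
      linear_combination z1
    | some i => exact (congrFun z4 i).trans (by rw [hN, hp]; rfl)
  have := H17.Cm.berq hA hf m.prime m.deg m'.deg h0 h0.nn (κ := w / r) (μ := c / r) (by
    rw [← hA', ← hN, ← hp, mulVec_sub, mulVec_smul]
    refine smul_right_injective _ r0 ?_
    simp only [smul_sub, smul_smul, mul_div_cancel₀ _ r0]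
    rw [← hζ, z5])
  exact ⟨hne.symm, this.elim (fun h => .inl h.symm) fun h => .inr h.symm⟩

/-- The reflected edge is fixed while the quadric moves in its confocal family. -/
theorem ng0 [IsAlgClosed C] [CharZero Ω] [Algebra Ω L] [IsScalarTower C Ω L] {m m' : Mir k C ι}
    (hne : m' ≠ m) {A : Matrix (Option ι) (Option ι) C} (hA : A.IsSymm) {a : C}
    (hf : m.f = a • quad A) {l : ι ⊕ ι → Ω} (hl : Tl m' l) {μ s α β : L}
    (hμ : Transcendental Ω μ) {x u : ι → L} (hx : x = algebraMap Ω L ∘ pos l)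
    (hu : u = algebraMap Ω L ∘ dir l) {B : Matrix (Option ι) (Option ι) L} {h : Option ι → L}
    (hB : B = adjugate (1 - μ • (A.map (algebraMap C L) * J ι L)) * A.map (algebraMap C L))
    (sB : B.IsSymm) (hk : h = B *ᵥ (α • hat x + β • vec u)) (hb : h ⬝ᵥ vec u = s * α)
    (ha : h ⬝ᵥ hat x = -(s * β)) (e0 : sp h ⬝ᵥ sp h ≠ 0) (d : Derivation C L L) (d1 : d μ = 1)
    (da : dv d (hat x - (2 * (h ⬝ᵥ hat x) / (sp h ⬝ᵥ sp h)) • vec (sp h)) = 0)
    (db : dv d (vec u - (2 * (h ⬝ᵥ vec u) / (sp h ⬝ᵥ sp h)) • vec (sp h)) = 0) : Cm m m' := by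
  have : CharZero L := charZero_of_injective_algebraMap (algebraMap Ω L).injective
  obtain ⟨hc, t, h0, ht⟩ := hl
  have e1 : x + algebraMap Ω L t • u = algebraMap Ω L ∘ pt l t := by
    ext i; simp [hx, hu, pt, Algebra.smul_def]
  have e2 : ∀ F : MvPolynomial ι C, MvPolynomial.aeval (algebraMap Ω L ∘ pt l t) F =
      algebraMap Ω L (MvPolynomial.aeval (pt l t) F) := fun F =>
    MvPolynomial.aeval_algebraMap_apply L (pt l t) F
  have e3 : grad m'.f (algebraMap Ω L ∘ pt l t) = algebraMap Ω L ∘ grad m'.f (pt l t) :=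
    funext fun i => e2 _
  have e4 := H17.Cm.grad_dv (θ := d) ((e2 m'.f).trans (by rw [h0.zero, map_zero]))
  rw [e3, ← e1, dv_add, dv_smul, add_left_comm, dotProduct_add, dotProduct_smul, hu,
    ← RingHom.map_dotProduct, ht, map_zero, smul_zero, zero_add, ← hu] at e4
  have e5 := core d hB sB hk hb ha e0 d1 da db e4
  have v1 : ∀ v : ι → Ω, vec (algebraMap Ω L ∘ v) = algebraMap Ω L ∘ vec v := fun v => by
    ext (_ | i) <;> simp [vec]
  have v2 : ∀ v : ι → Ω, hat (algebraMap Ω L ∘ v) = algebraMap Ω L ∘ hat v := fun v => by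
    ext (_ | i) <;> simp [hat]
  rw [e1, hu, v1, v1, v2] at e5
  refine cm_of_rel hne hA hf hc h0 rfl ht rfl (at_zero hμ _ _ _ _ ?_ e5)
  rw [hB, Matrix.map_map, ← RingHom.coe_comp, ← IsScalarTower.algebraMap_eq]

end Pool.Agent.MP_249f74_an.H92
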