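import Pool.Agent.MP_249f74_an.H23.Defs
import Pool.Agent.MP_249f74_an.H92.Ng0

/-!
The branch of a free parameter for finite classes of quadrics.
-/

namespace Pool.Agent.MP_249f74_an.H92

open Matrix hiding vec J
open H23

variable {k C Ω L ι : Type} [Field k] [Algebra k ℝ] [Field C] [Algebra k C] [Field Ω]
  [Algebra C Ω] [Field L] [Algebra C L] [Fintype ι] [DecidableEq ι]

lemma dl_ne [Algebra Ω L] {μ : L} (hμ : Transcendental Ω μ)
    (A : Matrix (Option ι) (Option ι) Ω) : Dl (A.map (algebraMap Ω L)) μ ≠ 0 := fun h => by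
  have h1 := Dl_map (Polynomial.aeval μ : Polynomial Ω →ₐ[Ω] L).toRingHom (A.map Polynomial.C)
    Polynomial.X
  have h2 := Dl_map (Polynomial.evalRingHom (0 : Ω)) (A.map Polynomial.C) Polynomial.X
  rw [transcendental_iff.1 hμ _ (h1.trans (by simpa [Function.comp_def] using h))] at h2
  simp at h2

theorem ng [IsAlgClosed C] [CharZero Ω] [Algebra Ω L] [IsScalarTower C Ω L]
    {m m' : H32.Mir k C ι} (hne : m' ≠ m) {A : Matrix (Option ι) (Option ι) C} (hA : A.IsSymm)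
    {a : C} (hf : m.f = a • H17.Cm.quad A) {l : ι ⊕ ι → Ω} (hl : H32.Tl m' l) {μ s α β : L}
    (hμ : Transcendental Ω μ) {lL : ι ⊕ ι → L} (hL : lL = fun j => algebraMap Ω L (l j))
    {B : Matrix (Option ι) (Option ι) L} (hB : B = Bm (A.map (algebraMap C L)) μ)
    (E : Eig B lL s α β) {h : Option ι → L} (hk : h = B *ᵥ Y lL α β) (e0 : ee h h ≠ 0)
    (d : Derivation C L L) (d1 : d μ = 1) (d0 : ∀ j, d (red h lL j) = 0) : H32.Cm m m' := by
  refine ng0 hne hA hf hl hμ (x := H32.pos lL) (u := H32.dir lL) (hL ▸ rfl) (hL ▸ rfl) hB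
    (hB ▸ Bm_symm (hA.map _) ?_) hk (hk ▸ E.hb) (hk ▸ E.ha) e0 d d1 ?_ ?_
  · have := dl_ne hμ (A.map (algebraMap C Ω))
    rwa [Matrix.map_map, ← RingHom.coe_comp, ← IsScalarTower.algebraMap_eq] at this
  · change H17.Cm.dv d (sr h _) = 0
    rw [← hat_red, dv_hat]
    ext (_ | i)
    exacts [rfl, d0 (.inl i)]
  · change H17.Cm.dv d (sr h _) = 0
    rw [← vec_red, dv_vec]
    ext (_ | i)
    exacts [rfl, d0 (.inr i)]

end Pool.Agent.MP_249f74_an.H92
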